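import Mathlib
import Pool.Agent.W259.GP.Defs

set_option autoImplicit false

namespace Pool.Agent.W345.GP.HF

open MeasureTheory Filter Polynomial
open Pool.Agent.W259.GP

/-- real polynomials are dominated by Gaussians -/
theorem poly_bound (Q : Polynomial ℝ) (ε : ℝ) (hε : 0 < ε) :
    ∃ C, 0 ≤ C ∧ ∀ x : ℝ, |Q.eval x| ≤ C * Real.exp (ε * x ^ 2) := by
  induction Q using Polynomial.induction_on' with
  | add p q hp hq =>
    obtain ⟨C1, hC1, h1⟩ := hp
    obtain ⟨C2, hC2, h2⟩ := hq
    refine ⟨C1 + C2, by positivity, fun x => ?_⟩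
    rw [Polynomial.eval_add, add_mul]
    exact (abs_add_le _ _).trans (add_le_add (h1 x) (h2 x))
  | monomial n a =>
    refine ⟨|a| * (1 + (n.factorial : ℝ) / ε ^ n), by positivity, fun x => ?_⟩
    rw [Polynomial.eval_monomial, abs_mul, abs_pow, mul_assoc]
    gcongr
    have h1 : |x| ^ n ≤ 1 + (x ^ 2) ^ n := by
      have h0 : (x ^ 2) ^ n = (|x| ^ n) ^ 2 := by
        rw [← sq_abs x]; ring
      rw [h0]
      nlinarith [sq_nonneg (|x| ^ n - 1), pow_nonneg (abs_nonneg x) n]
    have h2 : (ε * x ^ 2) ^ n / n.factorial ≤ Real.exp (ε * x ^ 2) :=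
      Real.pow_div_factorial_le_exp _ (by positivity) n
    have h3 : (x ^ 2) ^ n ≤ (n.factorial : ℝ) / ε ^ n * Real.exp (ε * x ^ 2) := by
      have hf : (0 : ℝ) < n.factorial := by positivity
      have he : 0 < ε ^ n := by positivity
      rw [div_le_iff₀ hf, mul_pow] at h2
      rw [div_mul_eq_mul_div, le_div_iff₀ he]
      calc (x ^ 2) ^ n * ε ^ n = ε ^ n * (x ^ 2) ^ n := by ring
        _ ≤ Real.exp (ε * x ^ 2) * n.factorial := h2
        _ = n.factorial * Real.exp (ε * x ^ 2) := by ring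
    have h4 : 1 ≤ Real.exp (ε * x ^ 2) := Real.one_le_exp (by positivity)
    calc |x| ^ n ≤ 1 + (x ^ 2) ^ n := h1
      _ ≤ Real.exp (ε * x ^ 2) + (n.factorial : ℝ) / ε ^ n * Real.exp (ε * x ^ 2) := by
          linarith
      _ = (1 + (n.factorial : ℝ) / ε ^ n) * Real.exp (ε * x ^ 2) := by ring

theorem poly_int (Q : Polynomial ℝ) : Integrable (fun x : ℝ => Q.eval x * Real.exp (-x ^ 2)) := by
  obtain ⟨C, hC, h⟩ := poly_bound Q (1 / 2) (by norm_num)
  have hg : Integrable (fun x : ℝ => C * Real.exp (-(1 / 2) * x ^ 2)) :=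
    (integrable_exp_neg_mul_sq (by norm_num : (0 : ℝ) < 1 / 2)).const_mul C
  refine hg.mono' ?_ (Filter.Eventually.of_forall fun x => ?_)
  · exact (by fun_prop : Continuous (fun x : ℝ => Q.eval x * Real.exp (-x ^ 2))).aestronglyMeasurable
  · rw [Real.norm_eq_abs, abs_mul, Real.abs_exp]
    calc |Q.eval x| * Real.exp (-x ^ 2) ≤ C * Real.exp (1 / 2 * x ^ 2) * Real.exp (-x ^ 2) := by
          gcongr
          exact h x
      _ = C * Real.exp (-(1 / 2) * x ^ 2) := by
          rw [mul_assoc, ← Real.exp_add]; ring_nf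

/-- the Hermite polynomials over the reals -/
noncomputable def He (n : ℕ) : Polynomial ℝ := (Polynomial.hermite n).map (Int.castRingHom ℝ)

theorem He_succ (n : ℕ) : He (n + 1) = Polynomial.X * He n - Polynomial.derivative (He n) := by
  unfold He
  rw [Polynomial.hermite_succ, Polynomial.map_sub, Polynomial.map_mul, Polynomial.map_X,
    Polynomial.derivative_map]

theorem He_zero : He 0 = 1 := by
  unfold He
  rw [Polynomial.hermite_zero]
  simp

theorem He_deriv (n : ℕ) : Polynomial.derivative (He (n + 1)) =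
    Polynomial.C ((n : ℝ) + 1) * He n := by
  induction n with
  | zero =>
    rw [He_succ, He_zero]
    simp
  | succ n ih =>
    rw [He_succ (n + 1), Polynomial.derivative_sub, Polynomial.derivative_mul,
      Polynomial.derivative_X, ih, Polynomial.derivative_mul, Polynomial.derivative_C, He_succ n]
    simp only [Polynomial.C_add, Nat.cast_add, Nat.cast_one, Polynomial.C_1]
    ring

/-- scaled polynomials -/
noncomputable def R (n : ℕ) : Polynomial ℝ := (He n).comp (C (√2) * X)

theorem R_eval (n : ℕ) (x : ℝ) :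
    (R n).eval x = Polynomial.aeval (√2 * x) (Polynomial.hermite n) := by
  unfold R He
  rw [Polynomial.eval_comp, Polynomial.eval_map, Polynomial.aeval_def]
  simp [algebraMap_int_eq]

theorem s_sq : √2 * √2 = (2 : ℝ) := Real.mul_self_sqrt (by norm_num)
theorem s_pos : 0 < √2 := Real.sqrt_pos.2 (by norm_num)

theorem R_zero : R 0 = 1 := by
  unfold R; rw [He_zero]; simp

theorem R_der (n : ℕ) : derivative (R n) = C (√2) * (derivative (He n)).comp (C (√2) * X) := by
  unfold R
  rw [Polynomial.derivative_comp, Polynomial.derivative_C_mul, Polynomial.derivative_X, mul_one]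

theorem R_succ_der (n : ℕ) : derivative (R (n + 1)) = C (√2 * ((n : ℝ) + 1)) * R n := by
  rw [R_der, He_deriv, Polynomial.mul_comp, Polynomial.C_comp, ← mul_assoc, ← C_mul]
  rfl

/-- `√2 R_{n+1} = 2 x R_n - R_n'` -/
theorem R_succ (n : ℕ) : C (√2) * R (n + 1) = C 2 * X * R n - derivative (R n) := by
  rw [R_der]
  unfold R
  rw [He_succ, Polynomial.sub_comp, Polynomial.mul_comp, Polynomial.X_comp, mul_sub]
  congr 1
  rw [← mul_assoc, ← mul_assoc, ← C_mul, s_sq]

/-- integrals -/
noncomputable def J (k l : ℕ) : ℝ := ∫ x : ℝ, (R k * R l).eval x * Real.exp (-x ^ 2)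

theorem J_symm (k l : ℕ) : J k l = J l k := by unfold J; rw [mul_comm]

theorem J_der (Q : Polynomial ℝ) :
    ∫ x : ℝ, (derivative Q - C 2 * X * Q).eval x * Real.exp (-x ^ 2) = 0 := by
  apply integral_eq_zero_of_hasDerivAt_of_integrable (f := fun x : ℝ => Q.eval x * Real.exp (-x ^ 2))
  · intro x
    have h1 : HasDerivAt (fun x : ℝ => Q.eval x) ((derivative Q).eval x) x := Q.hasDerivAt x
    have h2 : HasDerivAt (fun x : ℝ => Real.exp (-x ^ 2)) (Real.exp (-x ^ 2) * (-(2 * x))) x := by
      have h3 : HasDerivAt (fun x : ℝ => -x ^ 2) (-(2 * x)) x := by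
        have := (hasDerivAt_pow 2 x).neg
        exact this.congr_deriv (by norm_num)
      exact h3.exp
    have h4 := h1.mul h2
    refine h4.congr_deriv ?_
    simp only [eval_sub, eval_mul, eval_C, eval_X]
    ring
  · exact poly_int _
  · exact poly_int _

theorem J_rel (k l : ℕ) :
    ∫ x : ℝ, (derivative (R l) * R k - C (√2) * (R l * R (k + 1))).eval x * Real.exp (-x ^ 2)
      = 0 := by
  have := J_der (R l * R k)
  rw [← this]
  congr 1
  ext x
  congr 2
  rw [derivative_mul]
  have h := R_succ k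
  linear_combination (-1 : Polynomial ℝ) * R l * h

theorem int_C (a : ℝ) (P Q : Polynomial ℝ) :
    ∫ x : ℝ, (P - C a * Q).eval x * Real.exp (-x ^ 2) =
      (∫ x : ℝ, P.eval x * Real.exp (-x ^ 2)) - a * ∫ x : ℝ, Q.eval x * Real.exp (-x ^ 2) := by
  rw [← integral_const_mul, ← integral_sub (poly_int P) ((poly_int Q).const_mul a)]
  congr 1
  ext x
  simp only [eval_sub, eval_mul, eval_C]
  ring

theorem int_C' (a : ℝ) (Q : Polynomial ℝ) :
    ∫ x : ℝ, (C a * Q).eval x * Real.exp (-x ^ 2) =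
      a * ∫ x : ℝ, Q.eval x * Real.exp (-x ^ 2) := by
  rw [← integral_const_mul]
  congr 1
  ext x
  simp only [eval_mul, eval_C]
  ring

theorem J_zero_succ (k : ℕ) : J 0 (k + 1) = 0 := by
  have h := J_rel k 0
  rw [int_C, R_zero] at h
  simp only [derivative_one, zero_mul, eval_zero, integral_zero, zero_sub, neg_eq_zero,
    mul_eq_zero] at h
  rcases h with h | h
  · exact absurd h s_pos.ne'
  · unfold J
    rw [R_zero]
    exact h

theorem J_succ (k l : ℕ) : J (l + 1) (k + 1) = ((l : ℝ) + 1) * J l k := by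
  have h := J_rel k (l + 1)
  rw [int_C, R_succ_der, mul_assoc, int_C'] at h
  have h2 : √2 * (((l : ℝ) + 1) * J l k - J (l + 1) (k + 1)) = 0 := by
    unfold J
    linear_combination h
  rcases mul_eq_zero.1 h2 with h3 | h3
  · exact absurd h3 s_pos.ne'
  · linarith

theorem J_zero : J 0 0 = √Real.pi := by
  unfold J
  rw [R_zero]
  have := integral_gaussian 1
  simp only [div_one, neg_mul, one_mul] at this
  simp [this]

theorem J_eq (k l : ℕ) : J k l = if k = l then (k.factorial : ℝ) * √Real.pi else 0 := by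
  induction k generalizing l with
  | zero =>
    cases l with
    | zero => simp [J_zero]
    | succ l => simp [J_zero_succ]
  | succ k ih =>
    cases l with
    | zero => rw [J_symm, J_zero_succ]; simp
    | succ l =>
      rw [J_succ, ih]
      by_cases h : k = l
      · subst h
        simp [Nat.factorial_succ]; ring
      · have : ¬ (k + 1 = l + 1) := fun h' => h (by omega)
        simp [h]

theorem hf_eq (k : ℕ) (x : ℝ) : hf k x =
    (√((k.factorial : ℝ) * √Real.pi))⁻¹ * (R k).eval x * Real.exp (-x ^ 2 / 2) := by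
  unfold hf; rw [R_eval]

theorem hf_mul (k l : ℕ) (x : ℝ) : hf k x * hf l x =
    (√((k.factorial : ℝ) * √Real.pi))⁻¹ * (√((l.factorial : ℝ) * √Real.pi))⁻¹ *
      ((R k * R l).eval x * Real.exp (-x ^ 2)) := by
  rw [hf_eq, hf_eq, eval_mul]
  have : Real.exp (-x ^ 2) = Real.exp (-x ^ 2 / 2) * Real.exp (-x ^ 2 / 2) := by
    rw [← Real.exp_add]; ring_nf
  rw [this]; ring

theorem hf_int (k l : ℕ) : Integrable (fun x => hf k x * hf l x) := by
  simp only [hf_mul]
  exact (poly_int _).const_mul _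

theorem hf_orth (k l : ℕ) : ∫ x, hf k x * hf l x = if k = l then 1 else 0 := by
  simp only [hf_mul]
  rw [integral_const_mul]
  change _ * J k l = _
  rw [J_eq]
  by_cases h : k = l
  · subst h
    rw [if_pos rfl, if_pos rfl]
    have hp : 0 < (k.factorial : ℝ) * √Real.pi := by
      have := Real.pi_pos
      positivity
    rw [← mul_inv, Real.mul_self_sqrt hp.le, inv_mul_cancel₀ hp.ne']
  · rw [if_neg h, if_neg h, mul_zero]

theorem hf_cont (k : ℕ) : Continuous (hf k) := by
  have : hf k = fun x => (√((k.factorial : ℝ) * √Real.pi))⁻¹ * (R k).eval x *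
      Real.exp (-x ^ 2 / 2) := by
    ext x; exact hf_eq k x
  rw [this]
  fun_prop

theorem hf_bound (k : ℕ) : ∃ C, ∀ x, |hf k x| ≤ C * Real.exp (-x ^ 2 / 4) := by
  obtain ⟨C, hC, h⟩ := poly_bound (R k) (1 / 4) (by norm_num)
  refine ⟨(√((k.factorial : ℝ) * √Real.pi))⁻¹ * C, fun x => ?_⟩
  rw [hf_eq, abs_mul, abs_mul, Real.abs_exp, abs_of_nonneg (by positivity :
    0 ≤ (√((k.factorial : ℝ) * √Real.pi))⁻¹)]
  calc (√((k.factorial : ℝ) * √Real.pi))⁻¹ * |(R k).eval x| * Real.exp (-x ^ 2 / 2)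
      ≤ (√((k.factorial : ℝ) * √Real.pi))⁻¹ * (C * Real.exp (1 / 4 * x ^ 2)) *
        Real.exp (-x ^ 2 / 2) := by
        gcongr
        exact h x
    _ = (√((k.factorial : ℝ) * √Real.pi))⁻¹ * C * Real.exp (-x ^ 2 / 4) := by
        have : Real.exp (-x ^ 2 / 4) = Real.exp (1 / 4 * x ^ 2) * Real.exp (-x ^ 2 / 2) := by
          rw [← Real.exp_add]; ring_nf
        rw [this]; ring

/-- recursion coefficients -/
noncomputable def b (k : ℕ) : ℝ := √((k : ℝ) / 2)

theorem b_sq (k : ℕ) : b k * b k = (k : ℝ) / 2 := Real.mul_self_sqrt (by positivity)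

/-- `x R_k = (R_{k+1} + k R_{k-1}) / √2` -/
theorem xR (k : ℕ) (x : ℝ) : √2 * (x * (R k).eval x) =
    (R (k + 1)).eval x + (k : ℝ) * (R (k - 1)).eval x := by
  have h := congrArg (fun P : Polynomial ℝ => P.eval x) (R_succ k)
  simp only [eval_mul, eval_sub, eval_C, eval_X] at h
  have h2 : (derivative (R k)).eval x = √2 * ((k : ℝ) * (R (k - 1)).eval x) := by
    cases k with
    | zero => rw [R_zero]; simp
    | succ k =>
      rw [R_succ_der]
      simp only [eval_mul, eval_C, Nat.cast_add, Nat.cast_one, Nat.add_sub_cancel]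
      ring
  rw [h2] at h
  have hs := s_pos
  have h3 : √2 * (√2 * (x * (R k).eval x)) =
      √2 * ((R (k + 1)).eval x + (k : ℝ) * (R (k - 1)).eval x) := by
    rw [← mul_assoc, s_sq]
    linarith
  exact mul_left_cancel₀ hs.ne' h3

theorem coef_up (k : ℕ) : (√((k.factorial : ℝ) * √Real.pi))⁻¹ =
    √2 * b (k + 1) * (√(((k + 1).factorial : ℝ) * √Real.pi))⁻¹ := by
  have hπ := Real.pi_pos
  have h1 : √2 * b (k + 1) = √((k : ℝ) + 1) := by
    unfold b
    rw [← Real.sqrt_mul (by norm_num)]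
    congr 1
    push_cast
    ring
  have h2 : √(((k + 1).factorial : ℝ) * √Real.pi) =
      √((k : ℝ) + 1) * √((k.factorial : ℝ) * √Real.pi) := by
    rw [← Real.sqrt_mul (by positivity), Nat.factorial_succ]
    congr 1
    push_cast
    ring
  have h3 : 0 < √((k : ℝ) + 1) := Real.sqrt_pos.2 (by positivity)
  have h4 : 0 < √((k.factorial : ℝ) * √Real.pi) := Real.sqrt_pos.2 (by positivity)
  rw [h1, h2]
  field_simp

theorem x_hf (k : ℕ) (x : ℝ) : x * hf k x = b (k + 1) * hf (k + 1) x + b k * hf (k - 1) x := by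
  have hs := s_pos
  apply mul_left_cancel₀ hs.ne'
  have h1 : √2 * (x * hf k x) = (√((k.factorial : ℝ) * √Real.pi))⁻¹ *
      (√2 * (x * (R k).eval x)) * Real.exp (-x ^ 2 / 2) := by
    rw [hf_eq]; ring
  rw [h1, xR, mul_add, hf_eq, hf_eq]
  have h2 : (√((k.factorial : ℝ) * √Real.pi))⁻¹ * ((k : ℝ) * (R (k - 1)).eval x) =
      √2 * (b k * ((√(((k - 1).factorial : ℝ) * √Real.pi))⁻¹ * (R (k - 1)).eval x)) := by
    cases k with
    | zero => simp [b]
    | succ k =>
      have h3 := coef_up k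
      have h4 := b_sq (k + 1)
      have h5 : ((k + 1 : ℕ) : ℝ) = 2 * (b (k + 1) * b (k + 1)) := by rw [h4]; ring
      simp only [Nat.add_sub_cancel]
      rw [h3, h5]
      linear_combination (-(b (k + 1) * b (k + 1) * (√(((k + 1).factorial : ℝ) * √Real.pi))⁻¹ *
        (R k).eval x)) * s_sq
  have h6 := coef_up k
  calc ((√((k.factorial : ℝ) * √Real.pi))⁻¹ * (R (k + 1)).eval x +
        (√((k.factorial : ℝ) * √Real.pi))⁻¹ * ((k : ℝ) * (R (k - 1)).eval x)) *
        Real.exp (-x ^ 2 / 2)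
      = (√2 * b (k + 1) * (√(((k + 1).factorial : ℝ) * √Real.pi))⁻¹ * (R (k + 1)).eval x +
        √2 * (b k * ((√(((k - 1).factorial : ℝ) * √Real.pi))⁻¹ * (R (k - 1)).eval x))) *
        Real.exp (-x ^ 2 / 2) := by rw [h2, ← h6]
    _ = _ := by ring

theorem hf_mom1 (k l : ℕ) : ∫ x, x * (hf k x * hf l x) =
    if l = k + 1 then √(((k : ℝ) + 1) / 2)
    else if k = l + 1 then √(((l : ℝ) + 1) / 2) else 0 := by
  have h1 : ∀ x, x * (hf k x * hf l x) =
      b (k + 1) * (hf (k + 1) x * hf l x) + b k * (hf (k - 1) x * hf l x) := by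
    intro x
    rw [← mul_assoc, x_hf]; ring
  simp only [h1]
  rw [integral_add ((hf_int _ _).const_mul _) ((hf_int _ _).const_mul _), integral_const_mul,
    integral_const_mul, hf_orth, hf_orth]
  by_cases h : l = k + 1
  · subst h
    rw [if_pos rfl, if_pos rfl, if_neg (by omega)]
    simp [b]
  · rw [if_neg (fun h' => h h'.symm), if_neg h]
    by_cases h2 : k = l + 1
    · subst h2
      rw [if_pos (by omega), if_pos rfl]
      simp [b]
    · rw [if_neg h2]
      cases k with
      | zero => simp [b]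
      | succ k =>
        rw [if_neg (by omega)]
        simp

theorem hf_mom2 (k : ℕ) : ∫ x, x ^ 2 * hf k x ^ 2 = (2 * (k : ℝ) + 1) / 2 := by
  have h1 : ∀ x, x ^ 2 * hf k x ^ 2 =
      b (k + 1) * b (k + 1) * (hf (k + 1) x * hf (k + 1) x) +
      (2 * b (k + 1) * b k * (hf (k + 1) x * hf (k - 1) x) +
      b k * b k * (hf (k - 1) x * hf (k - 1) x)) := by
    intro x
    rw [← mul_pow, x_hf]; ring
  simp only [h1]
  have hA : Integrable (fun x => b (k + 1) * b (k + 1) * (hf (k + 1) x * hf (k + 1) x)) :=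
    (hf_int _ _).const_mul _
  have hB : Integrable (fun x => 2 * b (k + 1) * b k * (hf (k + 1) x * hf (k - 1) x) +
      b k * b k * (hf (k - 1) x * hf (k - 1) x)) :=
    ((hf_int _ _).const_mul _).add ((hf_int _ _).const_mul _)
  rw [integral_add hA hB, integral_add ((hf_int _ _).const_mul _)
    ((hf_int _ _).const_mul _), integral_const_mul, integral_const_mul, integral_const_mul,
    hf_orth, hf_orth, hf_orth, if_pos rfl, if_neg (by omega), if_pos rfl, b_sq, b_sq]
  push_cast
  ring

theorem hf_main : S_hf := ⟨hf_cont, hf_bound, hf_orth, hf_mom1, hf_mom2⟩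

end Pool.Agent.W345.GP.HF
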